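import Pool.Agent.H683.SC.PosPStm

/-!
# Project SP (helper683), S_PDIG: the digits are computed in polynomial time, given a pad
-/

set_option autoImplicit false

namespace Pool.Agent.NPC.H767SP

open Turing Pool.Agent.H683.SC Pool.Agent.H683.MC Pool.Agent.H633R2

/-- powers of two with a unary exponent -/
theorem poly_two_pow {α : Type} [TEnc α] {n : α → ℕ} (hn : UPoly n) : Poly (fun a => 2 ^ n a) := by
  refine Poly.of_natBits ?_
  refine (Poly.append (Poly.map (F := fun _ _ => false) hn (Poly.const false))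
    (Poly.const [true])).congr fun a => ?_
  have key : ∀ k : ℕ, (List.replicate k ()).map (fun _ => false) ++ [true] = (2 ^ k).bits := by
    intro k
    induction k with
    | zero => simp
    | succ k ih =>
      rw [pow_succ', Nat.bit0_bits _ (pow_ne_zero _ (by norm_num)), ← ih]
      rfl
  exact key (n a)

theorem poly_tlab : Poly tlab := by
  have h1 : Poly (fun w : List (ℕ × ℕ × ℕ) =>
      w.flatMap fun o => if o.1 = 1 then [] else [o.2.1, o.2.2]) := by
    refine Poly.flatMap (l := fun w : List (ℕ × ℕ × ℕ) => w)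
      (F := fun _ o => if o.1 = 1 then [] else [o.2.1, o.2.2]) Poly.id ?_
    exact Poly.ite (p := fun p : List (ℕ × ℕ × ℕ) × (ℕ × ℕ × ℕ) => p.2.1 = 1)
      (Poly.decide_eq (Poly.fst (Poly.snd Poly.id)) (Poly.const 1)) (Poly.const [])
      (Poly.cons (Poly.fst (Poly.snd (Poly.snd Poly.id)))
        (Poly.cons (Poly.snd (Poly.snd (Poly.snd Poly.id))) (Poly.const [])))
  exact Poly.comp (g := Pool.Agent.NPC.H683MC.ded) Pool.Agent.NPC.H683MC.poly_ded h1

theorem uPoly_nvt : UPoly nvt :=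
  UPoly.length (Poly.filter (l := fun w : List (ℕ × ℕ × ℕ) => w)
    (p := fun _ o => decide (o.1 = 0)) Poly.id
    (Poly.decide_eq (Poly.fst (Poly.snd Poly.id)) (Poly.const 0)))

/-- looking up a value -/
theorem poly_lk {α : Type} [TEnc α] {st : α → List (List ℕ)} {tb : α → List ℕ} {σ : α → List ℕ}
    (hst : Poly st) (htb : Poly tb) (hσ : Poly σ) : Poly (fun a => lk (st a) (tb a) (σ a)) := by
  have h1 : Poly (fun a => (((st a).zip (tb a)).filter fun p => decide (p.1 = σ a)).head?) :=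
    Poly.head? (Poly.filter (p := fun a (p : List ℕ × ℕ) => decide (p.1 = σ a)) (Poly.zip hst htb)
      (Poly.decide_eq (Poly.fst (Poly.snd Poly.id)) (hσ.comp (Poly.fst Poly.id))))
  refine (Poly.optCases (g := fun _ => 0) (h := fun _ p => p.2) h1 (Poly.const 0)
    (Poly.snd (Poly.snd Poly.id))).congr fun a => ?_
  unfold lk
  rw [List.head?_filter]
  cases List.find? (fun p : List ℕ × ℕ => decide (p.1 = σ a)) ((st a).zip (tb a)) <;> rfl

/-- the padded inputs -/
abbrev PP : Type := {x : List (ℕ × ℕ × ℕ) × List Unit //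
  2 ^ ((tlab x.1).length * Nat.size ((tlab x.1).length + 2)) ≤ x.2.length}

theorem p_w : Poly (fun x : PP => x.1.1) := Poly.fst (Poly.val _)

theorem p_pad : Poly (fun x : PP => x.1.2) := Poly.snd (Poly.val _)

theorem p_tlab : Poly (fun x : PP => tlab x.1.1) := poly_tlab.comp p_w

theorem u_len : UPoly (fun x : PP => (tlab x.1.1).length) := UPoly.length p_tlab

theorem u_nvt : UPoly (fun x : PP => nvt x.1.1) := uPoly_nvt.comp p_w

theorem u_e : UPoly (fun x : PP => nvt x.1.1 + (tlab x.1.1).length + 1) :=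
  UPoly.add (UPoly.add u_nvt u_len) (UPoly.const 1)

theorem u_E : UPoly (fun x : PP => (nvt x.1.1 + (tlab x.1.1).length + 1) * (nvt x.1.1 + 1)) :=
  UPoly.mul u_e (UPoly.add u_nvt (UPoly.const 1))

theorem p_qq : Poly (fun x : PP => qq x.1.1) := poly_two_pow u_e

theorem p_XX : Poly (fun x : PP => XX x.1.1) := poly_two_pow u_E

theorem p_sts (h : S_PSTS) : Poly (fun x : PP => sts (tlab x.1.1).length (tlab x.1.1).length) := by
  refine h PP (fun x => (tlab x.1.1).length) (fun x => x.1.2) u_len p_pad fun x => ?_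
  refine le_trans ?_ x.2
  rw [mul_comm, pow_mul]
  exact Nat.pow_le_pow_left (Nat.lt_size_self _).le _

theorem p_fold (h1 : S_PTST) (h2 : S_SZS) (h3 : S_PSTS) : Poly (fun x : PP =>
    x.1.1.foldl (tst (tlab x.1.1) (XX x.1.1) (qq x.1.1)
      (sts (tlab x.1.1).length (tlab x.1.1).length)) []) := by
  obtain ⟨P, hP⟩ := h2
  obtain ⟨r1, hr1⟩ := p_tlab.sz_le
  obtain ⟨r2, hr2⟩ := p_XX.sz_le
  obtain ⟨r3, hr3⟩ := p_qq.sz_le
  obtain ⟨r4, hr4⟩ := (p_sts h3).sz_le
  obtain ⟨r5, hr5⟩ := p_w.sz_le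
  refine Poly.foldl (l := fun x : PP => x.1.1) (s := fun _ => ([] : List (List ℕ)))
    (F := fun x => tst (tlab x.1.1) (XX x.1.1) (qq x.1.1)
      (sts (tlab x.1.1).length (tlab x.1.1).length)) p_w (Poly.const []) ?_
    (P.comp (r1 + r2 + r3 + r4 + r5)) ?_
  · exact h1 (PP × List (List ℕ) × (ℕ × ℕ × ℕ)) (fun p => tlab p.1.1.1) (fun p => XX p.1.1.1)
      (fun p => qq p.1.1.1) (fun p => sts (tlab p.1.1.1).length (tlab p.1.1.1).length)
      (fun p => p.2.1) (fun p => p.2.2) (p_tlab.comp (Poly.fst Poly.id))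
      (p_XX.comp (Poly.fst Poly.id)) (p_qq.comp (Poly.fst Poly.id))
      ((p_sts h3).comp (Poly.fst Poly.id)) (Poly.fst (Poly.snd Poly.id))
      (Poly.snd (Poly.snd Poly.id))
  · intro x k _
    refine (hP _ _ _ _ _).trans ?_
    rw [Polynomial.eval_comp]
    refine eval_mono P ?_
    simp only [Polynomial.eval_add]
    have e1 := hr1 x
    have e2 := hr2 x
    have e3 := hr3 x
    have e4 := hr4 x
    have e5 := (Poly.sz_take_le x.1.1 k).trans (hr5 x)
    omega

theorem p_valt (h1 : S_PTST) (h2 : S_SZS) (h3 : S_PSTS) : Poly (fun x : PP => valt x.1.1) := by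
  unfold valt
  refine poly_lk (p_sts h3) ?_ ?_
  · exact Poly.getD (p_fold h1 h2 h3) (Poly.const 0) (Poly.const [])
  · exact (Poly.map (F := fun _ _ => 1) u_len (Poly.const 1)).congr fun x => by
      rw [List.map_replicate]

theorem map_congr_min {γ : Type} (n : ℕ) (f : ℕ → γ) :
    (List.range (n + 1)).map (fun i => f (min i n)) = (List.range (n + 1)).map f := by
  refine List.map_congr_left fun i hi => ?_
  rw [List.mem_range] at hi
  rw [min_eq_left (by omega)]

/-- `min i n` in unary -/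
theorem u_min {α : Type} [TEnc α] {i n : α → ℕ} (hi : Poly i) (hn : UPoly n) :
    UPoly (fun a => min (i a) (n a)) :=
  UPoly.of_le (Poly.min hi hn.toPoly) hn fun _ => min_le_right _ _

/-- **PDIG.** -/
theorem PDIG : S_PTST → S_SZS → S_PSTS → S_PDIG := by
  intro h1 h2 h3
  have hV := p_valt h1 h2 h3
  have hr : Poly (fun x : PP => List.range (nvt x.1.1 + 1)) := (UPoly.add u_nvt (UPoly.const 1)).range
  have hin : Poly (fun p : (PP × ℕ) × ℕ => valt p.1.1.1.1 /
      2 ^ ((nvt p.1.1.1.1 + (tlab p.1.1.1.1).length + 1) * (nvt p.1.1.1.1 + 1) *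
        min p.1.2 (nvt p.1.1.1.1)) % XX p.1.1.1.1 /
      2 ^ ((nvt p.1.1.1.1 + (tlab p.1.1.1.1).length + 1) * min p.2 (nvt p.1.1.1.1)) %
        qq p.1.1.1.1) := by
    have g : Poly (fun p : (PP × ℕ) × ℕ => p.1.1) := Poly.fst (Poly.fst Poly.id)
    refine Poly.mod (Poly.div (Poly.mod (Poly.div (hV.comp g) ?_) (p_XX.comp g)) ?_) (p_qq.comp g)
    · exact poly_two_pow (UPoly.mul (u_E.comp g)
        (u_min (Poly.snd (Poly.fst Poly.id)) (u_nvt.comp g)))
    · exact poly_two_pow (UPoly.mul (u_e.comp g) (u_min (Poly.snd Poly.id) (u_nvt.comp g)))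
  have hmid := Poly.map (l := fun p : PP × ℕ => List.range (nvt p.1.1.1 + 1))
    (F := fun (p : PP × ℕ) (j : ℕ) => valt p.1.1.1 /
      2 ^ ((nvt p.1.1.1 + (tlab p.1.1.1).length + 1) * (nvt p.1.1.1 + 1) *
        min p.2 (nvt p.1.1.1)) % XX p.1.1.1 /
      2 ^ ((nvt p.1.1.1 + (tlab p.1.1.1).length + 1) * min j (nvt p.1.1.1)) % qq p.1.1.1)
    (hr.comp (Poly.fst Poly.id)) hin
  have hout := Poly.map (l := fun x : PP => List.range (nvt x.1.1 + 1))
    (F := fun (x : PP) (i : ℕ) => (List.range (nvt x.1.1 + 1)).map fun j => valt x.1.1 /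
      2 ^ ((nvt x.1.1 + (tlab x.1.1).length + 1) * (nvt x.1.1 + 1) *
        min i (nvt x.1.1)) % XX x.1.1 /
      2 ^ ((nvt x.1.1 + (tlab x.1.1).length + 1) * min j (nvt x.1.1)) % qq x.1.1) hr hmid
  refine hout.congr fun x => ?_
  rw [map_congr_min (nvt x.1.1) (fun i => (List.range (nvt x.1.1 + 1)).map fun j => valt x.1.1 /
      2 ^ ((nvt x.1.1 + (tlab x.1.1).length + 1) * (nvt x.1.1 + 1) * i) % XX x.1.1 /
      2 ^ ((nvt x.1.1 + (tlab x.1.1).length + 1) * min j (nvt x.1.1)) % qq x.1.1)]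
  unfold digs
  refine List.map_congr_left fun i _ => ?_
  rw [map_congr_min (nvt x.1.1) (fun j => valt x.1.1 /
      2 ^ ((nvt x.1.1 + (tlab x.1.1).length + 1) * (nvt x.1.1 + 1) * i) % XX x.1.1 /
      2 ^ ((nvt x.1.1 + (tlab x.1.1).length + 1) * j) % qq x.1.1)]
  refine List.map_congr_left fun j _ => ?_
  unfold XX qq
  rw [pow_mul 2 _ i, pow_mul 2 _ j]

end Pool.Agent.NPC.H767SP
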