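import Pool.Agent.H979.BK.Stm

/-!
# Project BK (helper979), part SPEC: splitting in slow and fast parts
-/

set_option autoImplicit false

namespace Pool.Agent.H767

open Filter Topology Finset Pool.Agent.H979.BK

namespace BKS

section growth

variable {F : Type} [NormedAddCommGroup F] [NormedSpace ℂ F] [CompleteSpace F]

/-- the exponential of a nilpotent operator, applied to a vector -/
theorem exp_nil (N : F →L[ℂ] F) (x : F) (k : ℕ) (h : (N ^ k) x = 0) (s : ℝ) (hs : 0 < s) (T : ℝ)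
    (hT : 0 ≤ T) : ‖(NormedSpace.exp ((T : ℂ) • N)) x‖ ≤
      Real.exp (s * T) * ∑ j ∈ range k, (1 / s) ^ j * ‖(N ^ j) x‖ := by
  have h1 := NormedSpace.exp_series_hasSum_exp' (𝕂 := ℂ) ((T : ℂ) • N)
  have h2 := (ContinuousLinearMap.apply ℂ F x).hasSum h1
  have h0 : ∀ n, n ∉ range k → (ContinuousLinearMap.apply ℂ F x)
      (((Nat.factorial n : ℂ)⁻¹) • ((T : ℂ) • N) ^ n) = 0 := by
    intro n hn
    rw [mem_range, not_lt] at hn
    obtain ⟨m, rfl⟩ := Nat.exists_eq_add_of_le hn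
    rw [ContinuousLinearMap.apply_apply, smul_pow, smul_apply,
      smul_apply, add_comm k m, pow_add N m k, mul_apply_eq_comp, h,
      map_zero, smul_zero, smul_zero]
  have h3 := h2.unique (hasSum_sum_of_ne_finset_zero h0)
  have h4 : (NormedSpace.exp ((T : ℂ) • N)) x = ∑ n ∈ range k,
      (ContinuousLinearMap.apply ℂ F x) (((Nat.factorial n : ℂ)⁻¹) • ((T : ℂ) • N) ^ n) := h3
  rw [h4, Finset.mul_sum]
  refine (norm_sum_le _ _).trans (Finset.sum_le_sum fun j _ => ?_)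
  rw [ContinuousLinearMap.apply_apply, smul_pow, smul_apply,
    smul_apply, norm_smul, norm_smul, norm_inv, norm_pow, Complex.norm_natCast,
    Complex.norm_real, Real.norm_of_nonneg hT]
  have h5 : (s * T) ^ j / (Nat.factorial j : ℝ) ≤ Real.exp (s * T) :=
    Real.pow_div_factorial_le_exp _ (by positivity) j
  have h6 : ((Nat.factorial j : ℝ))⁻¹ * T ^ j ≤ Real.exp (s * T) * (1 / s) ^ j := by
    have h7 : ((Nat.factorial j : ℝ))⁻¹ * T ^ j = (s * T) ^ j / (Nat.factorial j : ℝ) * (1 / s) ^ j := by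
      rw [mul_pow, one_div, inv_pow]
      field_simp
    rw [h7]
    exact mul_le_mul_of_nonneg_right h5 (by positivity)
  calc ((Nat.factorial j : ℝ))⁻¹ * (T ^ j * ‖(N ^ j) x‖)
      = (((Nat.factorial j : ℝ))⁻¹ * T ^ j) * ‖(N ^ j) x‖ := by ring
    _ ≤ (Real.exp (s * T) * (1 / s) ^ j) * ‖(N ^ j) x‖ :=
        mul_le_mul_of_nonneg_right h6 (norm_nonneg _)
    _ = Real.exp (s * T) * ((1 / s) ^ j * ‖(N ^ j) x‖) := by ring

/-- the vectors with growth at most `exp (r T)` -/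
def Bd (B : F →L[ℂ] F) (r : ℝ) : Submodule ℂ F where
  carrier := {x | ∃ C : ℝ, ∀ T : ℝ, 0 ≤ T → ‖(NormedSpace.exp ((T : ℂ) • B)) x‖ ≤ C * Real.exp (r * T)}
  add_mem' := by
    rintro x y ⟨C, hC⟩ ⟨D, hD⟩
    refine ⟨C + D, fun T hT => ?_⟩
    rw [map_add, add_mul]
    exact (norm_add_le _ _).trans (add_le_add (hC T hT) (hD T hT))
  zero_mem' := ⟨0, fun T _ => by rw [map_zero, norm_zero, zero_mul]⟩
  smul_mem' := by
    rintro c x ⟨C, hC⟩
    refine ⟨‖c‖ * C, fun T hT => ?_⟩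
    rw [map_smul, norm_smul, mul_assoc]
    exact mul_le_mul_of_nonneg_left (hC T hT) (norm_nonneg _)

theorem mem_Bd (B : F →L[ℂ] F) (b : ℂ) (r : ℝ) (hr : b.re < r) (x : F) (k : ℕ)
    (h : ((B - b • (1 : F →L[ℂ] F)) ^ k) x = 0) : x ∈ Bd B r := by
  refine ⟨∑ j ∈ range k, (1 / (r - b.re)) ^ j * ‖((B - b • (1 : F →L[ℂ] F)) ^ j) x‖, fun T hT => ?_⟩
  obtain ⟨N, hN⟩ : ∃ N : F →L[ℂ] F, N = B - b • (1 : F →L[ℂ] F) := ⟨_, rfl⟩
  rw [← hN] at h ⊢
  have h1 : (T : ℂ) • B = algebraMap ℂ (F →L[ℂ] F) ((T : ℂ) * b) + (T : ℂ) • N := by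
    rw [hN, Algebra.algebraMap_eq_smul_one, smul_sub, smul_smul]
    abel
  have h2 : NormedSpace.exp ((T : ℂ) • B) =
      NormedSpace.exp (algebraMap ℂ (F →L[ℂ] F) ((T : ℂ) * b)) * NormedSpace.exp ((T : ℂ) • N) := by
    rw [h1]
    let _ : NormedAlgebra ℚ (F →L[ℂ] F) := NormedAlgebra.restrictScalars ℚ ℂ (F →L[ℂ] F)
    exact NormedSpace.exp_add_of_commute (Algebra.commutes _ _)
  have h3 : NormedSpace.exp (algebraMap ℂ (F →L[ℂ] F) ((T : ℂ) * b)) =
      Complex.exp ((T : ℂ) * b) • (1 : F →L[ℂ] F) := by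
    rw [← NormedSpace.algebraMap_exp_comm, Algebra.algebraMap_eq_smul_one, Complex.exp_eq_exp_ℂ]
  rw [h2, h3, smul_one_mul, smul_apply, norm_smul, Complex.norm_exp]
  have h4 := exp_nil N x k h (r - b.re) (by linarith) T hT
  have h5 : ((T : ℂ) * b).re = T * b.re := Complex.re_ofReal_mul _ _
  rw [h5]
  calc Real.exp (T * b.re) * ‖(NormedSpace.exp ((T : ℂ) • N)) x‖
      ≤ Real.exp (T * b.re) * (Real.exp ((r - b.re) * T) *
          ∑ j ∈ range k, (1 / (r - b.re)) ^ j * ‖(N ^ j) x‖) :=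
        mul_le_mul_of_nonneg_left h4 (Real.exp_pos _).le
    _ = (∑ j ∈ range k, (1 / (r - b.re)) ^ j * ‖(N ^ j) x‖) *
          (Real.exp (T * b.re) * Real.exp ((r - b.re) * T)) := by ring
    _ = (∑ j ∈ range k, (1 / (r - b.re)) ^ j * ‖(N ^ j) x‖) * Real.exp (r * T) := by
        rw [← Real.exp_add]
        congr 2
        ring

/-- the inverse of an exponential -/
theorem exp_neg_mul (X : F →L[ℂ] F) : NormedSpace.exp (-X) * NormedSpace.exp X = 1 := by
  have h : NormedSpace.exp (-X + X) = NormedSpace.exp (-X) * NormedSpace.exp X := by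
    let _ : NormedAlgebra ℚ (F →L[ℂ] F) := NormedAlgebra.restrictScalars ℚ ℂ (F →L[ℂ] F)
    exact NormedSpace.exp_add_of_commute (Commute.neg_left (Commute.refl _))
  rw [← h, neg_add_cancel, NormedSpace.exp_zero]

/-- uniform boundedness -/
theorem unif (B R : F →L[ℂ] F) (r : ℝ) (h : ∀ x, R x ∈ Bd B r) :
    ∃ C : ℝ, 0 ≤ C ∧ ∀ T : ℝ, 0 ≤ T → ‖(NormedSpace.exp ((T : ℂ) • B)).comp R‖ ≤ C * Real.exp (r * T) := by
  obtain ⟨C, hC⟩ := banach_steinhaus (ι := {T : ℝ // 0 ≤ T})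
    (g := fun T => ((Real.exp (-(r * T.1)) : ℝ) : ℂ) • (NormedSpace.exp ((T.1 : ℂ) • B)).comp R)
    (fun x => by
      obtain ⟨C, hC⟩ := h x
      refine ⟨C, fun T => ?_⟩
      rw [smul_apply, norm_smul, Complex.norm_real,
        Real.norm_of_nonneg (Real.exp_pos _).le, ContinuousLinearMap.comp_apply]
      calc Real.exp (-(r * T.1)) * ‖(NormedSpace.exp ((T.1 : ℂ) • B)) (R x)‖
          ≤ Real.exp (-(r * T.1)) * (C * Real.exp (r * T.1)) :=
            mul_le_mul_of_nonneg_left (hC T.1 T.2) (Real.exp_pos _).le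
        _ = C * (Real.exp (-(r * T.1)) * Real.exp (r * T.1)) := by ring
        _ = C := by rw [← Real.exp_add, neg_add_cancel, Real.exp_zero, mul_one])
  refine ⟨max C 0, le_max_right _ _, fun T hT => ?_⟩
  have h1 := hC ⟨T, hT⟩
  simp only at h1
  rw [norm_smul, Complex.norm_real, Real.norm_of_nonneg (Real.exp_pos _).le] at h1
  have h2 : ‖(NormedSpace.exp ((T : ℂ) • B)).comp R‖ =
      (Real.exp (-(r * T)) * ‖(NormedSpace.exp ((T : ℂ) • B)).comp R‖) * Real.exp (r * T) := by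
    rw [mul_right_comm, ← Real.exp_add, neg_add_cancel, Real.exp_zero, one_mul]
  rw [h2]
  exact mul_le_mul_of_nonneg_right (h1.trans (le_max_left _ _)) (Real.exp_pos _).le

end growth

/-- a positive lower bound on a finite set -/
theorem fin_low {α : Type} (s : Finset α) (f : α → ℝ) (h : ∀ a ∈ s, 0 < f a) :
    ∃ g : ℝ, 0 < g ∧ ∀ a ∈ s, g ≤ f a := by
  classical
  induction s using Finset.induction_on with
  | empty => exact ⟨1, one_pos, by simp⟩
  | insert a s _ ih =>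
    obtain ⟨g, hg, hgs⟩ := ih fun b hb => h b (Finset.mem_insert_of_mem hb)
    refine ⟨min g (f a), lt_min hg (h a (Finset.mem_insert_self _ _)), fun b hb => ?_⟩
    rcases Finset.mem_insert.1 hb with rfl | hb
    · exact min_le_right _ _
    · exact (min_le_left _ _).trans (hgs b hb)

theorem large (C c : ℝ) (hc : 0 < c) (T : ℝ) (hT : C / c ≤ T) : C ≤ Real.exp (c * T) := by
  have h1 : C ≤ c * T := by rwa [div_le_iff₀' hc] at hT
  have h2 := Real.add_one_le_exp (c * T)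
  linarith

end BKS

open BKS

/-- **SPEC.** -/
theorem bk_spec : S_SPEC := by
  intro F _ _ _ V v z hv hVv htop
  have : CompleteSpace F := FiniteDimensional.complete ℂ F
  obtain ⟨f, hf⟩ : ∃ f : Module.End ℂ F, f = (V : F →ₗ[ℂ] F) := ⟨_, rfl⟩
  have hfV : ∀ x, f x = V x := fun x => by rw [hf]; rfl
  have hpow : ∀ (μ : ℂ) (k : ℕ) (x : F), ((V - μ • (1 : F →L[ℂ] F)) ^ k) x =
      ((f - μ • (1 : Module.End ℂ F)) ^ k) x := by
    intro μ k
    induction k with
    | zero => intro x; rfl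
    | succ k ih =>
      intro x
      rw [pow_succ, pow_succ, mul_apply_eq_comp, Module.End.mul_apply, ih]
      congr 1
      change V x - μ • x = f x - μ • x
      rw [hfV]
  obtain ⟨S1, hS1⟩ : ∃ S1 : Submodule ℂ F, S1 = ⨆ μ ∈ {μ : ℂ | μ.re = z.re}, f.maxGenEigenspace μ := ⟨_, rfl⟩
  obtain ⟨S2, hS2⟩ : ∃ S2 : Submodule ℂ F, S2 = ⨆ μ ∈ {μ : ℂ | μ.re ≠ z.re}, f.maxGenEigenspace μ := ⟨_, rfl⟩
  have hle1 : ∀ μ : ℂ, μ.re = z.re → f.maxGenEigenspace μ ≤ S1 := by
    intro μ hμ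
    rw [hS1]
    exact le_iSup₂_of_le μ hμ le_rfl
  have hle2 : ∀ μ : ℂ, μ.re ≠ z.re → f.maxGenEigenspace μ ≤ S2 := by
    intro μ hμ
    rw [hS2]
    exact le_iSup₂_of_le μ hμ le_rfl
  have hcompl : IsCompl S1 S2 := by
    constructor
    · rw [hS1, hS2]
      refine (f.independent_maxGenEigenspace).disjoint_biSup_biSup ?_
      rw [Set.disjoint_left]
      intro μ h1 h2
      exact h2 h1
    · rw [codisjoint_iff, eq_top_iff, ← Module.End.iSup_maxGenEigenspace_eq_top f]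
      refine iSup_le fun μ => ?_
      by_cases h : μ.re = z.re
      · exact (hle1 μ h).trans le_sup_left
      · exact (hle2 μ h).trans le_sup_right
  have hinv : ∀ μ : ℂ, ∀ x ∈ f.maxGenEigenspace μ, f x ∈ f.maxGenEigenspace μ := fun μ x hx =>
    Module.End.mapsTo_maxGenEigenspace_of_comm (Commute.refl f) μ hx
  have hinv1 : ∀ x ∈ S1, f x ∈ S1 := by
    have h1 : S1 ≤ S1.comap f := by
      nth_rewrite 1 [hS1]
      exact iSup₂_le fun μ hμ x hx => hle1 μ hμ (hinv μ x hx)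
    exact h1
  have hinv2 : ∀ x ∈ S2, f x ∈ S2 := by
    have h1 : S2 ≤ S2.comap f := by
      nth_rewrite 1 [hS2]
      exact iSup₂_le fun μ hμ x hx => hle2 μ hμ (hinv μ x hx)
    exact h1
  -- the projection
  obtain ⟨Q, hQ⟩ : ∃ Q : F →L[ℂ] F, ∀ x, Q x = S1.projection S2 hcompl x :=
    ⟨LinearMap.toContinuousLinearMap (S1.projection S2 hcompl), fun x => rfl⟩
  have hQm : ∀ x, Q x ∈ S1 := fun x => by rw [hQ]; exact Submodule.projection_apply_mem hcompl x
  have hQ1 : ∀ x ∈ S1, Q x = x := fun x hx => by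
    rw [hQ]; exact Submodule.projection_apply_of_mem_left hcompl hx
  have hQ2 : ∀ x ∈ S2, Q x = 0 := fun x hx => by
    rw [hQ]; exact Submodule.projection_apply_of_mem_right hcompl hx
  have hQc : ∀ x, x - Q x ∈ S2 := fun x => by
    rw [hQ, ← Submodule.projection_eq_self_sub_projection hcompl x]
    exact Submodule.projection_apply_mem hcompl.symm x
  have hQQ : Q * Q = Q := by
    ext x
    exact hQ1 _ (hQm x)
  have hcomm : Commute Q V := by
    ext x
    change Q (V x) = V (Q x)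
    have h1 : V x = V (Q x) + V (x - Q x) := by rw [← map_add, add_sub_cancel]
    have h2 : V (Q x) ∈ S1 := by rw [← hfV]; exact hinv1 _ (hQm x)
    have h3 : V (x - Q x) ∈ S2 := by rw [← hfV]; exact hinv2 _ (hQc x)
    rw [h1, map_add, hQ1 _ h2, hQ2 _ h3, add_zero]
  have hQv : Q v = v := by
    refine hQ1 v (hle1 z rfl ?_)
    rw [Module.End.mem_maxGenEigenspace]
    refine ⟨1, ?_⟩
    rw [pow_one]
    change f v - z • v = 0
    rw [hfV, hVv, sub_self]
  -- the gap
  have hfin : {μ : ℂ | f.maxGenEigenspace μ ≠ ⊥}.Finite :=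
    WellFoundedGT.finite_ne_bot_of_iSupIndep f.independent_maxGenEigenspace
  have hre : ∀ μ : ℂ, f.maxGenEigenspace μ ≠ ⊥ → μ.re ≤ z.re := by
    intro μ hμ
    have h1 : f.HasUnifEigenvalue μ ⊤ := hμ
    have h2 : f.HasEigenvalue μ := h1.lt zero_lt_one
    obtain ⟨y, hy⟩ := h2.exists_hasEigenvector
    exact htop μ y hy.2 (by rw [← hfV]; exact hy.apply_eq_smul)
  classical
  obtain ⟨g, hg, hgap⟩ := fin_low (hfin.toFinset.filter fun μ : ℂ => μ.re ≠ z.re)
    (fun μ => z.re - μ.re) (fun μ hμ => by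
      rw [Finset.mem_filter, Set.Finite.mem_toFinset] at hμ
      exact sub_pos.2 (lt_of_le_of_ne (hre μ hμ.1) hμ.2))
  refine ⟨g / 4, by positivity, fun ε hε hεg => ?_⟩
  -- slow part
  have hslow : ∀ x, Q x ∈ Bd (1 - V) (1 - z.re + ε / 2) := by
    intro x
    have h1 : S1 ≤ Bd (1 - V) (1 - z.re + ε / 2) := by
      rw [hS1]
      refine iSup₂_le fun μ hμ y hy => ?_
      rw [Module.End.mem_maxGenEigenspace] at hy
      obtain ⟨k, hk⟩ := hy
      have hμ' : μ.re = z.re := hμ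
      refine mem_Bd (1 - V) (1 - μ) _ ?_ y k ?_
      · rw [Complex.sub_re, Complex.one_re, hμ']
        linarith
      · have e : (1 - V) - (1 - μ) • (1 : F →L[ℂ] F) = (-1 : ℂ) • (V - μ • (1 : F →L[ℂ] F)) := by
          rw [sub_smul, one_smul, neg_smul, one_smul]
          abel
        rw [e, smul_pow, smul_apply, hpow, hk, smul_zero]
    exact h1 (hQm x)
  have hfast : ∀ x, (1 - Q) x ∈ Bd (V - 1) (-(1 - z.re) - 7 / 8 * g) := by
    intro x
    have h1 : S2 ≤ Bd (V - 1) (-(1 - z.re) - 7 / 8 * g) := by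
      rw [hS2]
      refine iSup₂_le fun μ hμ y hy => ?_
      by_cases hb : f.maxGenEigenspace μ = ⊥
      · rw [hb, Submodule.mem_bot] at hy
        rw [hy]
        exact Submodule.zero_mem _
      · rw [Module.End.mem_maxGenEigenspace] at hy
        obtain ⟨k, hk⟩ := hy
        have hμ' : μ.re ≠ z.re := hμ
        have h2 : g ≤ z.re - μ.re := hgap μ (by
          rw [Finset.mem_filter, Set.Finite.mem_toFinset]
          exact ⟨hb, hμ'⟩)
        refine mem_Bd (V - 1) (μ - 1) _ ?_ y k ?_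
        · rw [Complex.sub_re, Complex.one_re]
          linarith
        · have e : (V - 1) - (μ - 1) • (1 : F →L[ℂ] F) = V - μ • (1 : F →L[ℂ] F) := by
            rw [sub_smul, one_smul]
            abel
          rw [e, hpow, hk]
    exact h1 (hQc x)
  obtain ⟨Ca, hCa0, hCa⟩ := unif (1 - V) Q _ hslow
  obtain ⟨Cb, hCb0, hCb⟩ := unif (V - 1) (1 - Q) _ hfast
  obtain ⟨T, hT⟩ : ∃ T : ℝ, T = max 1 (max (Ca / (ε / 2)) (Cb / (g / 8))) := ⟨_, rfl⟩
  have hT1 : 1 ≤ T := by rw [hT]; exact le_max_left _ _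
  have hTa : Ca / (ε / 2) ≤ T := by
    rw [hT]; exact (le_max_left _ _).trans (le_max_right _ _)
  have hTb : Cb / (g / 8) ≤ T := by
    rw [hT]; exact (le_max_right _ _).trans (le_max_right _ _)
  have hT0 : 0 ≤ T := by linarith
  have ha := large Ca (ε / 2) (by positivity) T hTa
  have hb := large Cb (g / 8) (by positivity) T hTb
  have hA : ‖(NormedSpace.exp ((T : ℂ) • (1 - V))).comp Q‖ ≤ Real.exp ((1 - z.re + ε) * T) := by
    refine (hCa T hT0).trans ?_
    calc Ca * Real.exp ((1 - z.re + ε / 2) * T)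
        ≤ Real.exp (ε / 2 * T) * Real.exp ((1 - z.re + ε / 2) * T) :=
          mul_le_mul_of_nonneg_right ha (Real.exp_pos _).le
      _ = Real.exp ((1 - z.re + ε) * T) := by
          rw [← Real.exp_add]
          congr 1
          ring
  have hB : ‖(GG V T).comp (1 - Q)‖ ≤ Real.exp (-(1 - z.re + 3 * ε) * T) := by
    have e : GG V T = NormedSpace.exp ((T : ℂ) • (V - 1)) := by
      unfold GG
      rw [neg_smul, ← smul_neg, neg_sub]
    rw [e]
    refine (hCb T hT0).trans ?_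
    calc Cb * Real.exp ((-(1 - z.re) - 7 / 8 * g) * T)
        ≤ Real.exp (g / 8 * T) * Real.exp ((-(1 - z.re) - 7 / 8 * g) * T) :=
          mul_le_mul_of_nonneg_right hb (Real.exp_pos _).le
      _ ≤ Real.exp (-(1 - z.re + 3 * ε) * T) := by
          rw [← Real.exp_add]
          apply Real.exp_le_exp.2
          nlinarith
  have hQG : Commute Q (GG V T) := by
    unfold GG
    exact (((Commute.one_right Q).sub_right hcomm).smul_right _).exp_right
  have hinvG : GG V T * NormedSpace.exp ((T : ℂ) • (1 - V)) = 1 := by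
    unfold GG
    rw [neg_smul]
    exact exp_neg_mul _
  refine ⟨T, hT1, Q, hQv, hQG, fun w => ?_, fun w => ?_⟩
  · have h1 : w.comp Q = ((w.comp Q).comp (GG V T)).comp
        ((NormedSpace.exp ((T : ℂ) • (1 - V))).comp Q) := by
      have h2 : Q = Q * (GG V T * NormedSpace.exp ((T : ℂ) • (1 - V))) * Q := by
        rw [hinvG, mul_one, hQQ]
      ext x
      have h3 := congrArg (fun M : F →L[ℂ] F => w (M x)) h2
      exact h3
    have h2 : ‖w.comp Q‖ ≤ ‖(w.comp Q).comp (GG V T)‖ * Real.exp ((1 - z.re + ε) * T) := by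
      calc ‖w.comp Q‖ = ‖((w.comp Q).comp (GG V T)).comp
            ((NormedSpace.exp ((T : ℂ) • (1 - V))).comp Q)‖ := by rw [← h1]
        _ ≤ ‖(w.comp Q).comp (GG V T)‖ * ‖(NormedSpace.exp ((T : ℂ) • (1 - V))).comp Q‖ :=
            ContinuousLinearMap.opNorm_comp_le _ _
        _ ≤ _ := mul_le_mul_of_nonneg_left hA (norm_nonneg _)
    calc Real.exp (-(1 - z.re + ε) * T) * ‖w.comp Q‖
        ≤ Real.exp (-(1 - z.re + ε) * T) *
          (‖(w.comp Q).comp (GG V T)‖ * Real.exp ((1 - z.re + ε) * T)) :=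
          mul_le_mul_of_nonneg_left h2 (Real.exp_pos _).le
      _ = ‖(w.comp Q).comp (GG V T)‖ *
          (Real.exp (-(1 - z.re + ε) * T) * Real.exp ((1 - z.re + ε) * T)) := by ring
      _ = ‖(w.comp Q).comp (GG V T)‖ := by
          rw [← Real.exp_add, neg_mul, neg_add_cancel, Real.exp_zero, mul_one]
  · have h1 : (w.comp (1 - Q)).comp (GG V T) = (w.comp (1 - Q)).comp ((GG V T).comp (1 - Q)) := by
      have h2 : (1 - Q) * GG V T = (1 - Q) * (GG V T * (1 - Q)) := by
        have h3 : Commute (1 - Q) (GG V T) := (Commute.one_left _).sub_left hQG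
        rw [← h3.eq, ← mul_assoc]
        have h4 : (1 - Q) * (1 - Q) = 1 - Q := by
          rw [mul_sub, sub_mul, sub_mul, hQQ]
          simp
        rw [h4]
      ext x
      have h3 := congrArg (fun M : F →L[ℂ] F => w (M x)) h2
      exact h3
    rw [h1, mul_comm]
    refine (ContinuousLinearMap.opNorm_comp_le _ _).trans ?_
    exact mul_le_mul_of_nonneg_left hB (norm_nonneg _)

end Pool.Agent.H767
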