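import Pool.Agent.H979.FR.Stm

set_option autoImplicit false

namespace Pool.Agent.H767

open MeasureTheory ProbabilityTheory Finset
open scoped ENNReal NNReal
open Pool.Agent.H979.FR

section

variable {V : Type} (G : SimpleGraph V) [G.LocallyFinite]

lemma frout_mem (π : V → V) (hfin : ∀ x, {y | π y = π x}.Finite) (u : Set.range π) (y : V) :
    y ∈ cell π u ↔ π y = u := by
  obtain ⟨u, x, rfl⟩ := u
  have h : {y | π y = π x}.Finite := hfin x
  unfold cell
  simp only [h, dif_pos, Set.Finite.mem_toFinset]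
  rfl

lemma frout_part (π : V → V) (hfin : ∀ x, {y | π y = π x}.Finite) (f : V → ℝ≥0∞) :
    ∑' v : Set.range π, ∑ y ∈ cell π v, f y = ∑' y, f y := by
  classical
  have h1 : ∀ v : Set.range π, ∑ y ∈ cell π v, f y = ∑' y, if π y = v.1 then f y else 0 := by
    intro v
    rw [tsum_eq_sum (s := cell π v)]
    · apply Finset.sum_congr rfl
      intro y hy
      rw [if_pos ((frout_mem π hfin v y).1 hy)]
    · intro y hy
      rw [if_neg (fun h => hy ((frout_mem π hfin v y).2 h))]
  simp only [h1]
  rw [ENNReal.tsum_comm]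
  apply tsum_congr
  intro y
  rw [tsum_eq_single (⟨π y, y, rfl⟩ : Set.range π)]
  · simp
  · intro v hv
    rw [if_neg]
    intro h
    exact hv (Subtype.ext h.symm)

lemma frout_sumA (π : V → V) (hfin : ∀ x, {y | π y = π x}.Finite) (D : Finset (Set.range π))
    (A : Finset V) (hA : ∀ x, x ∈ A ↔ ∃ u ∈ D, π x = u) (f : V → ℝ) :
    ∑ u ∈ D, ∑ x ∈ cell π u, f x = ∑ x ∈ A, f x := by
  classical
  have hmaps : ∀ x ∈ A, (⟨π x, x, rfl⟩ : Set.range π) ∈ D := by
    intro x hx
    obtain ⟨u, hu, h⟩ := (hA x).1 hx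
    have : (⟨π x, x, rfl⟩ : Set.range π) = u := Subtype.ext h
    rw [this]
    exact hu
  rw [← Finset.sum_fiberwise_of_maps_to hmaps f]
  apply Finset.sum_congr rfl
  intro u hu
  apply Finset.sum_congr _ fun _ _ => rfl
  ext x
  rw [frout_mem π hfin, Finset.mem_filter, Subtype.ext_iff]
  constructor
  · intro h
    exact ⟨(hA x).2 ⟨u, hu, h⟩, h⟩
  · exact fun h => h.2

end

theorem fr_out (hSYM : S_SYM) : S_OUT := by
  classical
  intro V _ G _ d hd hdeg m τ hm π hfin lam hlam
  obtain ⟨h0, hsym, hsum, _, _⟩ := hSYM V G d hd hdeg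
  have hm0 : (0 : ℝ) < m := by exact_mod_cast hm
  have k0 : ∀ x y, 0 ≤ kap G m τ x y := fun x y =>
    div_nonneg (Finset.sum_nonneg fun j _ => h0 _ x y) hm0.le
  have ksym : ∀ x y, kap G m τ x y = kap G m τ y x := by
    intro x y
    unfold kap
    congr 1
    exact Finset.sum_congr rfl fun j _ => hsym _ x y
  have k1 : ∀ x, ∑' y, ENNReal.ofReal (kap G m τ x y) = 1 := by
    intro x
    have h1 : HasSum (fun y => kap G m τ x y) 1 := by
      have h2 : HasSum (fun y => ∑ j ∈ range m, pn G (j * τ) x y) (∑ j ∈ range m, (1 : ℝ)) :=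
        hasSum_sum fun j _ => hsum (j * τ) x
      have h3 := h2.div_const (m : ℝ)
      simp only [sum_const, card_range, nsmul_eq_mul, mul_one] at h3
      rw [div_self hm0.ne'] at h3
      exact h3
    rw [← ENNReal.ofReal_tsum_of_nonneg (k0 x) h1.summable, h1.tsum_eq, ENNReal.ofReal_one]
  have cw0 : ∀ u v, 0 ≤ cw G π m τ lam u v := fun u v =>
    mul_nonneg (by positivity)
      (Finset.sum_nonneg fun x _ => Finset.sum_nonneg fun y _ => k0 x y)
  have c3 : ∀ u : Set.range π, ∑' v : Set.range π, ENNReal.ofReal (cw G π m τ lam u v) =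
      ENNReal.ofReal (lam / 16 * (cell π u).card) := by
    intro u
    have h1 : ∀ v : Set.range π, ENNReal.ofReal (cw G π m τ lam u v) =
        ENNReal.ofReal (lam / 16) * ∑ x ∈ cell π u, ∑ y ∈ cell π v,
          ENNReal.ofReal (kap G m τ x y) := by
      intro v
      unfold cw
      rw [ENNReal.ofReal_mul (by positivity), ENNReal.ofReal_sum_of_nonneg
        (fun x _ => Finset.sum_nonneg fun y _ => k0 x y)]
      congr 1
      apply Finset.sum_congr rfl
      intro x _
      rw [ENNReal.ofReal_sum_of_nonneg (fun y _ => k0 x y)]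
    simp only [h1]
    rw [ENNReal.tsum_mul_left, Summable.tsum_finsetSum (fun _ _ => ENNReal.summable)]
    have h2 : ∀ x ∈ cell π u, ∑' v : Set.range π, ∑ y ∈ cell π v,
        ENNReal.ofReal (kap G m τ x y) = 1 := by
      intro x _
      rw [frout_part π hfin, k1]
    rw [Finset.sum_congr rfl h2, Finset.sum_const, nsmul_eq_mul, mul_one,
      ENNReal.ofReal_mul (by positivity), ENNReal.ofReal_natCast]
  refine ⟨cw0, ?_, c3, ?_⟩
  · intro u v
    unfold cw
    rw [Finset.sum_comm]
    congr 1
    exact Finset.sum_congr rfl fun y _ => Finset.sum_congr rfl fun x _ => ksym x y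
  · intro D A hA
    have hsplit : ∀ u : Set.range π, (∑' v : Set.range π, (if v ∈ D then 0 else
        ENNReal.ofReal (cw G π m τ lam u v))) + ∑ v ∈ D, ENNReal.ofReal (cw G π m τ lam u v) =
        ENNReal.ofReal (lam / 16 * (cell π u).card) := by
      intro u
      rw [← c3 u]
      have h1 : ∑ v ∈ D, ENNReal.ofReal (cw G π m τ lam u v) =
          ∑' v : Set.range π, (if v ∈ D then ENNReal.ofReal (cw G π m τ lam u v) else 0) := by
        rw [tsum_eq_sum (s := D)]
        · exact Finset.sum_congr rfl fun v hv => by rw [if_pos hv]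
        · intro v hv
          rw [if_neg hv]
      rw [h1, ← ENNReal.tsum_add]
      apply tsum_congr
      intro v
      by_cases hv : v ∈ D <;> simp [hv]
    have htot : (∑ u ∈ D, ∑' v : Set.range π, (if v ∈ D then 0 else
        ENNReal.ofReal (cw G π m τ lam u v))) +
        ENNReal.ofReal (lam / 16 * ∑ x ∈ A, ∑ y ∈ A, kap G m τ x y) =
        ENNReal.ofReal (lam / 16 * (A.card : ℝ)) := by
      have e1 : ENNReal.ofReal (lam / 16 * ∑ x ∈ A, ∑ y ∈ A, kap G m τ x y) =
          ∑ u ∈ D, ∑ v ∈ D, ENNReal.ofReal (cw G π m τ lam u v) := by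
        have e2 : ∀ u : Set.range π, ∑ v ∈ D, ENNReal.ofReal (cw G π m τ lam u v) =
            ENNReal.ofReal (∑ v ∈ D, cw G π m τ lam u v) := fun u =>
          (ENNReal.ofReal_sum_of_nonneg fun v _ => cw0 _ _).symm
        simp only [e2]
        rw [← ENNReal.ofReal_sum_of_nonneg (fun u _ => Finset.sum_nonneg fun v _ => cw0 _ _)]
        congr 1
        rw [← frout_sumA π hfin D A hA, Finset.mul_sum]
        apply Finset.sum_congr rfl
        intro u _
        unfold cw
        rw [← Finset.mul_sum]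
        congr 1
        refine Eq.trans ?_ Finset.sum_comm
        apply Finset.sum_congr rfl
        intro x _
        exact (frout_sumA π hfin D A hA fun y => kap G m τ x y).symm
      have e3 : ENNReal.ofReal (lam / 16 * (A.card : ℝ)) =
          ∑ u ∈ D, ENNReal.ofReal (lam / 16 * (cell π u).card) := by
        rw [← ENNReal.ofReal_sum_of_nonneg (fun u _ => by positivity), ← Finset.mul_sum]
        have e4 := frout_sumA π hfin D A hA fun _ => 1
        simp only [Finset.sum_const, nsmul_eq_mul, mul_one] at e4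
        rw [e4]
      rw [e1, e3, ← Finset.sum_add_distrib]
      exact Finset.sum_congr rfl fun u _ => hsplit u
    have hb : 0 ≤ lam / 16 * ∑ x ∈ A, ∑ y ∈ A, kap G m τ x y :=
      mul_nonneg (by positivity)
        (Finset.sum_nonneg fun x _ => Finset.sum_nonneg fun y _ => k0 x y)
    rw [mul_sub, ENNReal.ofReal_sub _ hb, ← htot, ENNReal.add_sub_cancel_right ENNReal.ofReal_ne_top]

end Pool.Agent.H767
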