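import Pool.Agent.H867.FT.Gen2

set_option autoImplicit false

namespace Pool.Agent.H767.FT867GOR

open Pool.Agent.H867.FT Polynomial

lemma exists_unit (P : Type) [CommRing P] [IsLocalRing P] (a b c d : P) (l : Fin 4 → P)
    (hl : ∀ i j, i ≠ j → IsUnit (l i - l j))
    (h : IsUnit a ∨ IsUnit b ∨ IsUnit c ∨ IsUnit d) :
    ∃ t : P, IsUnit (a * t ^ 3 + b * t ^ 2 + c * t + d) := by
  by_contra hcon
  push Not at hcon
  let f := IsLocalRing.residue P
  let p : (IsLocalRing.ResidueField P)[X] := C (f a) * X ^ 3 + C (f b) * X ^ 2 + C (f c) * X + C (f d)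
  have hp : p = 0 := by
    apply Polynomial.eq_zero_of_natDegree_lt_card_of_eval_eq_zero p (f := fun i => f (l i))
    · intro i j hij
      by_contra hne
      have h1 := hl i j hne
      have h2 : f (l i - l j) = 0 := by
        rw [map_sub]
        exact sub_eq_zero.2 hij
      rw [IsLocalRing.residue_eq_zero_iff] at h2
      exact h2 h1
    · intro i
      have h1 := hcon (l i)
      have h2 : f (a * l i ^ 3 + b * l i ^ 2 + c * l i + d) = 0 := by
        rw [IsLocalRing.residue_eq_zero_iff]
        exact h1
      simp only [p, eval_add, eval_mul, eval_C, eval_pow, eval_X]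
      simpa using h2
    · have : p.natDegree ≤ 3 := by
        simp only [p]
        compute_degree
      simpa using Nat.lt_succ_of_le this
  have hz : ∀ q : P, f q = 0 → ¬ IsUnit q := by
    intro q hq
    rw [IsLocalRing.residue_eq_zero_iff] at hq
    exact hq
  have c3 : f a = 0 := by
    have := congrArg (fun q => coeff q 3) hp
    simpa [p, coeff_X, coeff_C] using this
  have c2 : f b = 0 := by
    have := congrArg (fun q => coeff q 2) hp
    simpa [p, coeff_X, coeff_C] using this
  have c1 : f c = 0 := by
    have := congrArg (fun q => coeff q 1) hp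
    simpa [p, coeff_X, coeff_C] using this
  have c0 : f d = 0 := by
    have := congrArg (fun q => coeff q 0) hp
    simpa [p, coeff_X, coeff_C] using this
  rcases h with h | h | h | h
  · exact hz a c3 h
  · exact hz b c2 h
  · exact hz c c1 h
  · exact hz d c0 h

theorem gor : S_GOR := by
  intro P R L K _ _ _ _ _ _ _ _ _ _ _ _ _ _ _ _ C a b c d x y₀ ω θ l hl hcub hunit
  obtain ⟨t, ht⟩ := exists_unit P a b c d l hl hunit
  obtain ⟨u, hu⟩ := ht
  have hPR : ∀ p : P, algebraMap R K (algebraMap P R p) = algebraMap P K p := fun p =>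
    (IsScalarTower.algebraMap_apply P R K p).symm
  have hroot := hcub.root
  have hω := hcub.hω
  have hθ := hcub.hθ
  -- the inverse of x - t
  let v : P := ((u⁻¹ : Pˣ) : P)
  have huv : (a * t ^ 3 + b * t ^ 2 + c * t + d) * v = 1 := by
    rw [← hu]
    exact u.mul_inv
  let θ' : R := θ + algebraMap P R t * ω + algebraMap P R (b * t + a * t ^ 2)
  have hθ' : (x - algebraMap P K t) * algebraMap R K θ' =
      - algebraMap P K (a * t ^ 3 + b * t ^ 2 + c * t + d) := by
    simp only [θ', map_add, map_mul, hPR, hω, hθ, map_pow]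
    linear_combination hroot
  let w : R := -(algebraMap P R v) * θ'
  have hw : (x - algebraMap P K t) * algebraMap R K w = 1 := by
    have h1 : algebraMap P K (a * t ^ 3 + b * t ^ 2 + c * t + d) * algebraMap P K v = 1 := by
      rw [← map_mul, huv, map_one]
    simp only [w, map_mul, map_neg, hPR]
    linear_combination (-(algebraMap P K v)) * hθ' + h1
  have hx0 : x - algebraMap P K t ≠ 0 := by
    intro h0
    rw [h0, zero_mul] at hw
    exact zero_ne_one hw
  refine ⟨y₀ * (x - algebraMap P K t), mul_ne_zero hcub.hy hx0, ?_⟩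
  apply le_antisymm
  · intro y hy
    rw [hcub.hC] at hy
    obtain ⟨g₀, g₁, g₂, rfl⟩ := hy
    rw [Submodule.mem_span_singleton]
    refine ⟨algebraMap P R g₁ + (algebraMap P R g₀ + algebraMap P R (g₁ * t) +
      algebraMap P R g₂ * θ) * w, ?_⟩
    rw [Algebra.smul_def]
    simp only [map_add, map_mul, hPR]
    linear_combination (y₀ * (algebraMap P K g₀ + algebraMap P K g₁ * algebraMap P K t +
      algebraMap P K g₂ * algebraMap R K θ)) * hw
  · rw [Submodule.span_singleton_le_iff_mem, hcub.hC]
    exact ⟨-t, 1, 0, by rw [map_neg, map_one, map_zero]; ring⟩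

end Pool.Agent.H767.FT867GOR
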